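import Pool.Agent.Work.MP_2a522c_an.Pa.MA
import Pool.Agent.Work.MP_2a522c_an.Pa.MB
import Pool.Agent.Work.MP_2a522c_an.Pa.MC

namespace Pool.Agent.Results.MP_2a522c_an.PadicThreshold

open MeasureTheory Pool.Agent.Work.MP_2a522c_an.Pa
open scoped ENNReal

/-- Over the `p`-adic integers the exact threshold for nonempty interior of almost all projections
to dimension `l` is `l + 1`. -/
theorem result (p : ℕ) [Fact p.Prime] [MeasurableSpace ℤ_[p]] [BorelSpace ℤ_[p]] (n l : ℕ)
    (hl : 1 ≤ l) (hn : l < n) (γ : Measure (Fin l → Fin n → ℤ_[p])) [IsProbabilityMeasure γ]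
    [γ.IsAddLeftInvariant] (s : ℝ≥0∞) :
    (∀ E : Set (Fin n → ℤ_[p]), MeasurableSet E → s < dimH E →
      ∀ᵐ A ∂γ, (interior ((fun x i => ∑ j, A i j * x j) '' E)).Nonempty) ↔
      (l : ℝ≥0∞) + 1 ≤ s := by
  constructor
  · intro h
    by_contra hs
    obtain ⟨E, hE, hd, hA⟩ :=
      sharp p (bad p (null p (phi p) unif) (ker' p)) (dim' p unif) hl hn
    obtain ⟨A, hA'⟩ := (h E hE ((not_le.1 hs).trans_le hd)).exists
    exact hA'.ne_empty (hA A)
  · intro hs E hE hd
    exact asm p (core p (tail p (kakC p (kak p cover (red' p) (vand p lag (val p))) unif))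
      (line p int')) (en1b p int') (en3 p (en2 p unif)) (meas p) (fub p) (cap p) (frost p) γ hE
      (hs.trans_lt hd)

end Pool.Agent.Results.MP_2a522c_an.PadicThreshold
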