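import Pool.Agent.Work.MP_2a522c_an.W.W1
import Pool.Agent.Work.MP_2a522c_an.Stmt

/-! # Projections with nonempty interior above dimension `l + k + c k * l` -/

open MeasureTheory Pool.Agent.Work.MP_2a522c_an

namespace Pool.Agent.Results.MP_2a522c_an.SumDifference

theorem result (n l k : ℕ) (hk : 1 ≤ k)
    (γ : Measure (Grass (EuclideanSpace ℝ (Fin n)) l)) [hp : IsProbabilityMeasure γ]
    (hγ : Grass.Inv γ) (E : Set (EuclideanSpace ℝ (Fin n))) (hE : MeasurableSet E)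
    (h : ENNReal.ofReal ((l : ℝ) + k +
      (0.4031 * ∏ i ∈ Finset.Icc 2 k, (0.3355 + 0.054 / ((i : ℝ) - 0.7))) * l) < dimH E) :
    ∀ᵐ V ∂γ, Grass.HasInt E V := by
  obtain ⟨j, rfl⟩ := Nat.exists_eq_add_of_le' hk
  exact @W.main n l j γ hp hγ E hE h

end Pool.Agent.Results.MP_2a522c_an.SumDifference
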