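import Pool.Agent.Work.MP_2a522c_an.Main
import Pool.Agent.Work.MP_2a522c_an.Stmt

/-! # Projections with nonempty interior above dimension `l + k + (l - 1) / 2 ^ k` -/

open MeasureTheory Pool.Agent.Work.MP_2a522c_an

namespace Pool.Agent.Results.MP_2a522c_an.Threshold

theorem result (n l k : ℕ) (hl : 1 < l) (hk : 1 ≤ k)
    (γ : Measure (Grass (EuclideanSpace ℝ (Fin n)) l)) [hp : IsProbabilityMeasure γ]
    (hγ : Grass.Inv γ) (E : Set (EuclideanSpace ℝ (Fin n))) (hE : MeasurableSet E)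
    (h : ENNReal.ofReal ((l : ℝ) + k + ((l : ℝ) - 1) / 2 ^ k) < dimH E) :
    ∀ᵐ V ∂γ, Grass.HasInt E V :=
  @main n l k hl hk γ hp hγ E hE h

end Pool.Agent.Results.MP_2a522c_an.Threshold
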